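import Pool.Agent.Helper35K9.TW.Brg
import Pool.Agent.Helper35K9.TW.KLa
import Pool.Agent.Helper35K9.TW.Mw
import Pool.Agent.Helper35K9.LW.Towq
import Pool.Agent.Helper35K9.LW.Inc
import Pool.Agent.Helper35K9.LW.Mon
import Pool.Agent.Helper35K9.LW.Lln
import Pool.Agent.Y697.MQ.Ex4

/-!
# The central values in every degree of the powers of `D y² = x³ - x` over infinite towers of number
# fields

Let `K = ℚ(i)` and, for a squarefree `D ∈ ℤ[i]`, let `E_D` be the elliptic curve `D y² = x³ - x` over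
`K`, with Hecke character `ψ_D`, `ψ_D((p)) = (D / p) p` for the primes `p ≡ 1 mod 2 + 2i`. For a number
field `F ⊇ K` and `X = E_D^N` over `F`, the representation `H^(2m-1)(X)` of the Galois group of `F` is a
direct sum of the characters `ψ_F^a conj ψ_F^b`, `a + b = 2 m - 1`, where `ψ_F = ψ_D ∘ N_{F/K}` is the
Hecke character of `E_D` over `F`; so `L(H^(2m-1)(X), s)` is a product of the functions
`L(ψ_F^a conj ψ_F^b, s)`. For a set `S` of primes `p ≡ 1 mod 2 + 2i` let `Above D S` be the statement: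
for all fields `F` generated over `K` by square roots of products of primes of `S`

* `E_D(F)` is finite, and
* for all `m ≥ 1` and all `a + b = 2 m - 1` the function `L(ψ_F^a conj ψ_F^b, s)` is entire and not
  zero at the centre `s = m`.

Let `P` be any finite set of primes `p ≡ 1 mod 2 + 2i` of `ℤ[i]`, `N = 2 ^ #P`, and let `D` run over
the squarefree `D ≡ 1 + i mod 4` which are prime to `P`, ordered by norm.

* For at least the proportion `0.419 ^ N` of the `D` there is an infinite `S` that contains `P` such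
  that `Above D S`.
* The number of the `T ⊆ P` with `Above (D ∏ T) S` (for one infinite set `S` that depends only on `D`)
  is bounded below by the law of a binomial variable with parameters `N` and `0.419`: it is at least
  `k` for at least the proportion `P(Bin(N, 0.419) ≥ k)` of the `D`.
* For every `ε > 0`, if `#P` is large, then at least the proportion `1 - ε` of the `D`
  have an infinite `S` with `Above (D ∏ T) S` for at least `(0.419 - ε) N` of the `N` sets `T ⊆ P`. (Over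
  `F (√p : p ∈ P)` the curve `E_D` is isogenous to a product of the curves `E_{D ∏ T}`, by restriction
  of scalars.)

Proof. The criterion in every degree (over `K`) is the one of the start files; here it is
applied to all the twists `E_{D d}`, `d` a product of primes of `P ∪ S`. We determine the joint
distribution of the Rédei matrices of the `N` numbers `D d`, `d ∣ ∏ P`, as symmetric forms with a common
random part: all their moments are asymptotically those of independent variables. Then `S` is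
constructed by induction with Chebotarev's theorem; the `L`-functions over `F` and the points of `E_D` over
`F` are given by those of the twists over `K`.
-/

set_option autoImplicit false

namespace Pool.Agent.Results.MP_b8021b_nt.TowersEveryDegree

open Filter Topology NumberField IsDedekindDomain

/-- `d` is primary: `d ≡ 1` modulo `2 + 2i`. -/
def Primary (d : GaussianInt) : Prop := (⟨2, 2⟩ : GaussianInt) ∣ d - 1

open Classical in
/-- The quadratic residue symbol `(D / p)` for a prime `p` of `ℤ[i]`: it is `0` if `p` divides `D`,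
`1` if `D` is a nonzero square modulo `p`, and `-1` if `D` is not a square modulo `p`. -/
noncomputable def symbol (p D : GaussianInt) : ℤ :=
  if p ∣ D then 0 else if ∃ b : GaussianInt, p ∣ b * b - D then 1 else -1

variable {F : Type} [Field F] [NumberField F]

/-- `F = ℚ(i)(√d : d ∈ s)`, where `ℤ[i]` is embedded in `F` by `ι`. -/
def Generated (ι : GaussianInt →+* 𝓞 F) (s : Finset GaussianInt) : Prop :=
  ∃ r : GaussianInt → 𝓞 F, (∀ d ∈ s, r d ^ 2 = ι d) ∧
    ∀ L : Subfield F, (∀ g : GaussianInt, (ι g : F) ∈ L) → (∀ d ∈ s, (r d : F) ∈ L) → L = ⊤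

/-- `q_v`, the number of elements of the residue field of `v`. -/
noncomputable def q (v : HeightOneSpectrum (𝓞 F)) : ℕ := Ideal.absNorm v.asIdeal

/-- `z` is the value at `v` of the Hecke character of `D y² = x³ - x` over `F`:
`z = ψ_D((p)) ^ f = ((D / p) p) ^ f`, where `p ≡ 1 mod 2 + 2i` is the prime of `ℤ[i]` below `v` and `f` is
the residue degree, `q_v = N(p) ^ f`. -/
def IsValue (ι : GaussianInt →+* 𝓞 F) (D : GaussianInt) (v : HeightOneSpectrum (𝓞 F)) (z : ℂ) :
    Prop := ∃ (p : GaussianInt) (f : ℕ), Prime p ∧ Primary p ∧ ι p ∈ v.asIdeal ∧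
      q v = p.norm.natAbs ^ f ∧ z = ((symbol p D : ℂ) * (p : ℂ)) ^ f

open Classical in
/-- The Hecke character `ψ_F` of `D y² = x³ - x` over `F`. -/
noncomputable def psi (ι : GaussianInt →+* 𝓞 F) (D : GaussianInt) (v : HeightOneSpectrum (𝓞 F)) :
    ℂ := if h : ∃ z, IsValue ι D v z then h.choose else 0

/-- The `L`-function of `ψ_F^a conj ψ_F^b` (Euler product over the places of `F` which do not divide
`2 D ∏ d`, `d ∈ s`) has an entire continuation `L` with `L(m) ≠ 0`. -/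
def Nonvanishing (ι : GaussianInt →+* 𝓞 F) (s : Finset GaussianInt) (D : GaussianInt)
    (m a b : ℕ) : Prop := ∃ L : ℂ → ℂ, Differentiable ℂ L ∧
  (∀ z : ℂ, (m : ℝ) + 1 / 2 < z.re → HasProd (fun v : {v : HeightOneSpectrum (𝓞 F) //
    ι (2 * D * ∏ d ∈ s, d) ∉ v.asIdeal} =>
      (1 - psi ι D v.1 ^ a * (starRingEnd ℂ) (psi ι D v.1) ^ b * (q v.1 : ℂ) ^ (-z))⁻¹) (L z)) ∧
  L m ≠ 0

/-- The curve `y² = x³ - D² x` over `F`, isomorphic to `D y² = x³ - x`. -/
noncomputable def curve (ι : GaussianInt →+* 𝓞 F) (D : GaussianInt) : WeierstrassCurve.Affine F :=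
  WeierstrassCurve.toAffine { a₁ := 0, a₂ := 0, a₃ := 0, a₄ := -(ι D : F) ^ 2, a₆ := 0 }

/-- The squarefree Gaussian integers `D ≡ 1 + i mod 4` of norm at most `X` which are prime to `P`. -/
def All (P : Finset GaussianInt) (X : ℕ) : Set GaussianInt :=
  {D | D.norm.natAbs ≤ X ∧ (4 : GaussianInt) ∣ D - ⟨1, 1⟩ ∧ Squarefree D ∧ ∀ p ∈ P, ¬ p ∣ D}

/-- For all fields `F` generated over `ℚ(i)` by square roots of primary elements with all prime factors
in `S`: `E_D(F)` is finite and `L(ψ_F^a conj ψ_F^b, s)` does not vanish at `s = m`, for all `m ≥ 1` and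
all `a + b = 2 m - 1`. -/
def Above (D : GaussianInt) (S : Set GaussianInt) : Prop :=
  ∀ (F : Type) [Field F] [NumberField F] (ι : GaussianInt →+* 𝓞 F) (s : Finset GaussianInt),
    Generated ι s → (∀ d ∈ s, Primary d ∧ ∀ p, Prime p → Primary p → p ∣ d → p ∈ S) →
      Finite (curve ι D).Point ∧
      ∀ m a b : ℕ, 1 ≤ m → a + b = 2 * m - 1 → Nonvanishing ι s D m a b

/-- Those `D` with an infinite set `S` of primary primes, not dividing `D` and containing `P`, such that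
`Above D S`. -/
def Tower (P : Finset GaussianInt) (X : ℕ) : Set GaussianInt := {D | D ∈ All P X ∧
  ∃ S : Set GaussianInt, S.Infinite ∧ (∀ p ∈ P, p ∈ S) ∧
    (∀ p ∈ S, Prime p ∧ Primary p ∧ ¬ p ∣ D) ∧ Above D S}

open Classical in
/-- Those `D` with an infinite set `S` of primary primes, not dividing `D` and not in `P`, such that
`Above (D ∏ T) S` for at least `k` of the `2 ^ #P` subsets `T` of `P`. -/
def Many (P : Finset GaussianInt) (k X : ℕ) : Set GaussianInt := {D | D ∈ All P X ∧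
  ∃ S : Set GaussianInt, S.Infinite ∧ (∀ p ∈ S, Prime p ∧ Primary p ∧ ¬ p ∣ D ∧ p ∉ P) ∧
    k ≤ (P.powerset.filter fun T => Above (D * ∏ p ∈ T, p) S).card}

/-- The probability that a binomial variable with parameters `N` and `0.419` is at least `k`. -/
noncomputable def tail (N k : ℕ) : ℝ :=
  ∑ j ∈ Finset.Icc k N, (N.choose j : ℝ) * 0.419 ^ j * 0.581 ^ (N - j)

/-! ### The proof -/

section proof

open Pool.Agent.Helper35K9.TW
open Pool.Agent.Y697.MQ (OP Pr_iff leg Gd gA exists_ker2 Pr_prod)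
open Pool.Agent.Y697.PP (SS mem_SS NS NS_pos)

theorem prim_iff (p : GaussianInt) : Pool.Agent.Y697.MQ.Pr p ↔ Primary p := Pr_iff p

theorem op_iff (p : GaussianInt) : OP p ↔ Prime p ∧ Primary p :=
  ⟨fun h => ⟨h.pr, (prim_iff p).1 h.pm⟩, fun h => ⟨h.1, (prim_iff p).2 h.2⟩⟩

theorem symbol_eq (p D : GaussianInt) : symbol p D = leg p D := (leg_eq_qs p D).symm

theorem isVal_iff {ι : GaussianInt →+* 𝓞 F} {D : GaussianInt} {v : HeightOneSpectrum (𝓞 F)}
    {z : ℂ} : IsVal ι D v z ↔ IsValue ι D v z := by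
  unfold IsVal IsValue
  constructor
  · rintro ⟨p, f, h1, h2, h3, h4⟩
    exact ⟨p, f, h1.pr, (prim_iff p).1 h1.pm, h2, h3, by rw [symbol_eq]; exact h4⟩
  · rintro ⟨p, f, h1, h2, h3, h4, h5⟩
    exact ⟨p, f, (op_iff p).2 ⟨h1, h2⟩, h3, h4, by rw [← symbol_eq]; exact h5⟩

theorem psi_eq {ι : GaussianInt →+* 𝓞 F} {D : GaussianInt} {v : HeightOneSpectrum (𝓞 F)}
    {z : ℂ} (h : IsVal ι D v z) : psi ι D v = z := by
  have h1 : ∃ z, IsValue ι D v z := ⟨z, isVal_iff.1 h⟩
  unfold psi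
  rw [dif_pos h1]
  exact (isVal_iff.2 h1.choose_spec).unique h

/-- the two index sets -/
def eqv : {q : GaussianInt // OP q} ≃ Pool.Agent.Y690.PP.Pr :=
  Equiv.subtypeEquivRight fun p => op_iff p

theorem hasL_of {D' : GaussianInt} (h : Pool.Agent.Y690.PP.Fn.GoodL D') {m a b : ℕ} (hm : 1 ≤ m)
    (hab : a + b = 2 * m - 1) : HasL a b m D' := by
  obtain ⟨L, ⟨h1, h2⟩, h3⟩ := h m a b hm hab
  refine ⟨L, h1, fun s hs => ?_, h3⟩
  have h4 := h2 s hs
  rw [← eqv.hasProd_iff] at h4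
  convert h4 using 1
  funext p
  simp only [Function.comp_apply]
  unfold lY Ya
  rw [leg_eq_qs]
  congr 2
  show _ = ((Pool.Agent.Y690.PP.qs p.1 D' : ℤ) : ℂ) * (p.1 : ℂ) ^ a * (starRingEnd ℂ) (p.1 : ℂ) ^ b *
    ((p.1.norm : ℤ) : ℂ) ^ (-s)
  ring

theorem norm_la (d : GaussianInt) :
    ((⟨1, 1⟩ : GaussianInt) * d).norm.natAbs = 2 * d.norm.natAbs := by
  rw [Zsqrtd.norm_mul, Int.natAbs_mul]
  rfl

theorem mod_la {d : GaussianInt} (h : Primary d) :
    (4 : GaussianInt) ∣ (⟨1, 1⟩ : GaussianInt) * d - ⟨1, 1⟩ := by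
  obtain ⟨c, hc⟩ := h
  refine ⟨⟨0, 1⟩ * c, ?_⟩
  have e : (⟨1, 1⟩ : GaussianInt) * ⟨2, 2⟩ = 4 * ⟨0, 1⟩ := by decide
  linear_combination (⟨1, 1⟩ : GaussianInt) * hc + c * e

theorem of_mod {D : GaussianInt} (h : (4 : GaussianInt) ∣ D - ⟨1, 1⟩) :
    ∃ d, Primary d ∧ D = ⟨1, 1⟩ * d := by
  obtain ⟨c, hc⟩ := h
  have e : (⟨1, 1⟩ : GaussianInt) * (⟨2, 2⟩ * ⟨0, -1⟩) = 4 := by decide
  refine ⟨1 + ⟨2, 2⟩ * (⟨0, -1⟩ * c), ⟨⟨0, -1⟩ * c, by ring⟩, ?_⟩
  linear_combination hc - c * e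

theorem not_dvd_prod {Q : Finset GaussianInt} (hQ : ∀ x ∈ Q, OP x) {p : GaussianInt} (hp : OP p)
    (hpQ : p ∉ Q) : ¬ p ∣ (⟨1, 1⟩ : GaussianInt) * ∏ x ∈ Q, x := by
  intro hdvd
  rcases hp.pr.dvd_or_dvd hdvd with h | h
  · exact hp.odd h
  · obtain ⟨x, hx, hpx⟩ := (Prime.dvd_finsetProd_iff hp.pr _).1 h
    rw [hp.dvd (hQ x hx) hpx] at hpQ
    exact hpQ hx

theorem mem_all {P Q : Finset GaussianInt} (hP : ∀ p ∈ P, OP p) {X : ℕ} (hQ : Q ∈ SS (X / 2))
    (hd : Disjoint Q P) : (⟨1, 1⟩ : GaussianInt) * ∏ x ∈ Q, x ∈ All P X := by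
  obtain ⟨hQO, hQX⟩ := mem_SS.1 hQ
  refine ⟨?_, mod_la ((prim_iff _).1 (Pr_prod fun x hx => (hQO x hx).pm)), ?_, fun p hp =>
    not_dvd_prod hQO (hP p hp) fun h => Finset.disjoint_left.1 hd h hp⟩
  · rw [norm_la]
    have h1 : (∏ x ∈ Q, x).norm.natAbs = NS Q := rfl
    rw [h1]
    omega
  · rw [squarefree_mul_iff]
    refine ⟨?_, la_prime.squarefree, ?_⟩
    · refine (((la_prime.irreducible.coprime_iff_not_dvd).2 fun h => ?_)).isRelPrime
      obtain ⟨x, hx, hpx⟩ := (Prime.dvd_finsetProd_iff la_prime _).1 h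
      exact (hQO x hx).odd ((la_prime.irreducible.associated_of_dvd
        (hQO x hx).pr.irreducible hpx).symm.dvd)
    · refine Finset.squarefree_prod_of_pairwise_isCoprime (fun a ha b hb hab => ?_)
        fun x hx => (hQO x hx).pr.squarefree
      exact (((hQO a ha).pr.irreducible.coprime_iff_not_dvd).2 fun h1 =>
        hab ((hQO a ha).dvd (hQO b hb) h1)).isRelPrime

theorem all_finite (P : Finset GaussianInt) (X : ℕ) : (All P X).Finite :=
  (Pool.Agent.Y697.MQ.fin_norm X).subset fun _ h => h.1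

open Classical in
theorem all_le (P : Finset GaussianInt) (X : ℕ) : (All P X).ncard ≤
    ((SS (X / 2)).filter fun S => Disjoint S P).card := by
  have h1 : All P X ⊆ ((((SS (X / 2)).filter fun S => Disjoint S P).image
      fun S => (⟨1, 1⟩ : GaussianInt) * ∏ p ∈ S, p : Finset GaussianInt) : Set GaussianInt) := by
    rintro D ⟨h1, h2, h3, h4⟩
    obtain ⟨d, hd, rfl⟩ := of_mod h2
    obtain ⟨T, hT, e, he, hDe⟩ := exists_ker2 d ((prim_iff d).2 hd)
    have he1 : e = 1 := by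
      apply he.unit
      apply h3 e
      rw [hDe, pow_two]
      exact ((dvd_mul_left _ _).mul_left _)
    rw [he1, one_pow, mul_one] at hDe
    rw [Finset.mem_coe, Finset.mem_image]
    refine ⟨T, Finset.mem_filter.2 ⟨mem_SS.2 ⟨fun p hp => (hT p hp).1, ?_⟩, ?_⟩, by rw [hDe]⟩
    · unfold Pool.Agent.Y697.PP.NS
      rw [← hDe]
      rw [norm_la] at h1
      exact (Nat.le_div_iff_mul_le (by norm_num)).2 (by
        have h5 : Pool.Agent.Y697.PP.nm d = d.norm.natAbs := rfl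
        omega)
    · rw [Finset.disjoint_left]
      intro p hp hpP
      apply h4 p hpP
      rw [hDe]
      exact (Finset.dvd_prod_of_mem _ hp).mul_left _
  have h2 := Set.ncard_le_ncard h1 (Finset.finite_toSet _)
  rw [Set.ncard_coe_finset] at h2
  exact h2.trans Finset.card_image_le

theorem inj_prod {S T : Finset GaussianInt} (hS : ∀ x ∈ S, OP x) (hT : ∀ x ∈ T, OP x)
    (h : (⟨1, 1⟩ : GaussianInt) * ∏ p ∈ S, p = ⟨1, 1⟩ * ∏ p ∈ T, p) : S = T :=
  Pool.Agent.Y697.PP.prod_inj hS hT (mul_left_cancel₀ la_prime.ne_zero h)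

open Classical in
theorem le_all {P : Finset GaussianInt} (hP : ∀ p ∈ P, OP p) (X : ℕ) :
    ((SS (X / 2)).filter fun S => Disjoint S P).card ≤ (All P X).ncard := by
  have h3 : ((((SS (X / 2)).filter fun S => Disjoint S P).image
      fun S => (⟨1, 1⟩ : GaussianInt) * ∏ p ∈ S, p : Finset GaussianInt) : Set GaussianInt) ⊆
        All P X := by
    intro D hD
    rw [Finset.mem_coe, Finset.mem_image] at hD
    obtain ⟨S, hS, rfl⟩ := hD
    rw [Finset.mem_filter] at hS
    exact mem_all hP hS.1 hS.2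
  have h4 := Set.ncard_le_ncard h3 (all_finite P X)
  rw [Set.ncard_coe_finset, Finset.card_image_of_injOn] at h4
  · exact h4
  · intro S hS T hT h
    rw [Finset.mem_coe, Finset.mem_filter, mem_SS] at hS hT
    exact inj_prod hS.1.1 hT.1.1 h

theorem above_of {Q : Finset GaussianInt} (hQO : ∀ x ∈ Q, OP x) {R : Set GaussianInt}
    (hgd : ∀ U : Finset GaussianInt, (∀ l ∈ U, l ∈ R) → Disjoint Q U ∧ Gd gA gL (Q ∪ U)) :
    Above ((⟨1, 1⟩ : GaussianInt) * ∏ x ∈ Q, x) R := by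
  classical
  intro F _ _ ι s hs₀ hs
  obtain ⟨r, hr1, hr2⟩ := hs₀
  have hgen : Pool.Agent.Y697.MQ.GenBy ι s r := ⟨hr1, hr2⟩
  have hs1 : ∀ d ∈ s, Pool.Agent.Y697.MQ.Pr d := fun d hd => (prim_iff d).2 (hs d hd).1
  have hD0 : (⟨1, 1⟩ : GaussianInt) * ∏ x ∈ Q, x ≠ 0 :=
    mul_ne_zero la_prime.ne_zero (Finset.prod_ne_zero_iff.2 fun x hx => (hQO x hx).pr.ne_zero)
  have key : ∀ J ⊆ s, ∃ D' e : GaussianInt,
      (⟨1, 1⟩ : GaussianInt) * (∏ x ∈ Q, x) * ∏ d ∈ J, d = D' * e ^ 2 ∧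
      Pool.Agent.Y690.PP.Fn.GoodP D' ∧ Pool.Agent.Y690.PP.Fn.GoodL D' := by
    intro J hJ
    obtain ⟨U, hU, e, -, hUe⟩ := exists_ker2 _ (Pr_prod fun d hd => hs1 d (hJ hd))
    have hUR : ∀ l ∈ U, l ∈ R := by
      intro l hl
      obtain ⟨h1, h2⟩ := hU l hl
      obtain ⟨d, hd, hld⟩ := (Prime.dvd_finsetProd_iff h1.pr _).1 h2
      exact (hs d (hJ hd)).2 l h1.pr ((prim_iff l).1 h1.pm) hld
    obtain ⟨h1, h2⟩ := hgd U hUR
    have h3 := good_of_gd (fun x hx => by
      rcases Finset.mem_union.1 hx with h3 | h3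
      · exact hQO x h3
      · exact (hU x h3).1) h2
    refine ⟨_, e, ?_, h3⟩
    rw [hUe, Finset.prod_union h1]
    unfold Pool.Agent.Y690.PP.Fn.la
    ring
  constructor
  · have hE : curve ι ((⟨1, 1⟩ : GaussianInt) * ∏ x ∈ Q, x) =
        (Pool.Agent.W307.RS.ShK (-((ι ((⟨1, 1⟩ : GaussianInt) * ∏ x ∈ Q, x) : 𝓞 F) : F) ^ 2)
          (0 : F)).toAffine := rfl
    rw [hE]
    exact finite_F ι hgen hs1 hD0 fun J hJ => by
      obtain ⟨D', e, h1, h2, -⟩ := key J hJ
      exact ⟨D', e, h1, h2⟩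
  · intro m a b hm hab
    have hab' : ((a : ℝ) + b) = 2 * m - 1 := by
      have h1 : a + b + 1 = 2 * m := by omega
      have h2 : ((a + b + 1 : ℕ) : ℝ) = ((2 * m : ℕ) : ℝ) := by rw [h1]
      push_cast at h2
      linarith
    obtain ⟨L, hL1, hL2, hL3⟩ := KLa ι hgen hs1 hD0 (a := a) (b := b) (m := m) (by linarith)
      ⟨m - 1, by omega⟩ (fun J hJ => by
        obtain ⟨D', e, h1, -, h2⟩ := key J hJ
        exact ⟨D', e, h1, hasL_of h2 hm hab⟩) (psi ι _) (fun v z h => psi_eq h)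
    refine ⟨L, hL1, fun z hz => ?_, hL2⟩
    have h1 := hL3 z (by linarith)
    have h2 : HasProd (Set.mulIndicator {v : HeightOneSpectrum (𝓞 F) |
        ι (2 * ((⟨1, 1⟩ : GaussianInt) * ∏ x ∈ Q, x) * ∏ d ∈ s, d) ∉ v.asIdeal}
        (fun v => (1 - psi ι ((⟨1, 1⟩ : GaussianInt) * ∏ x ∈ Q, x) v ^ a *
          (starRingEnd ℂ) (psi ι ((⟨1, 1⟩ : GaussianInt) * ∏ x ∈ Q, x) v) ^ b *
          (q v : ℂ) ^ (-z))⁻¹)) (L z) := by
      convert h1 using 1
      funext v
      by_cases h3 : ι (2 * ((⟨1, 1⟩ : GaussianInt) * ∏ x ∈ Q, x) * ∏ d ∈ s, d) ∈ v.asIdeal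
      · rw [if_pos h3, Set.mulIndicator_of_notMem (not_not_intro h3)]
      · rw [if_neg h3, Set.mulIndicator_of_mem h3]
        rfl
    exact (hasProd_subtype_iff_mulIndicator).2 h2

theorem mem_tower {P : Finset GaussianInt} (hP : ∀ p ∈ P, OP p) {X : ℕ}
    {Q : Finset GaussianInt} (hQ : Q ∈ SS (X / 2)) (hd : Pool.Agent.Helper35K9.TW.PQ.Dj P Q) :
    (⟨1, 1⟩ : GaussianInt) * (∏ x ∈ Q, x) ∈ Tower P X := by
  classical
  obtain ⟨hQO, hQX⟩ := mem_SS.1 hQ
  obtain ⟨hdis, hdet⟩ := hd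
  obtain ⟨R, hRinf, hR, hQR, hPR, hgd⟩ := Pool.Agent.Helper35K9.TW.PQ.exists_towerP hP hQO hdis
    fun U hU => Pool.Agent.Helper35K9.TW.PP.gd_of_det (by convert hdet U hU)
  refine ⟨mem_all hP hQ hdis, R, hRinf, hPR, fun p hp => ?_, above_of hQO hgd⟩
  have h1 := (op_iff p).1 (hR p hp)
  exact ⟨h1.1, h1.2, not_dvd_prod hQO (hR p hp) fun hpQ => hQR p hpQ hp⟩

theorem mem_many {P : Finset GaussianInt} (hP : ∀ p ∈ P, OP p) {k X : ℕ}
    {Q : Finset GaussianInt} (hQ : Q ∈ SS (X / 2)) (hd : Pool.Agent.Helper35K9.LW.Ej k P Q) :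
    (⟨1, 1⟩ : GaussianInt) * (∏ x ∈ Q, x) ∈ Many P k X := by
  classical
  obtain ⟨hQO, hQX⟩ := mem_SS.1 hQ
  obtain ⟨hdis, hk⟩ := hd
  obtain ⟨R, hRinf, hR, hQR, hPR, hgd⟩ := Pool.Agent.Helper35K9.LW.exists_towerQ hP hQO
  refine ⟨mem_all hP hQ hdis, R, hRinf, fun p hp => ?_, ?_⟩
  · have h1 := (op_iff p).1 (hR p hp)
    exact ⟨h1.1, h1.2, not_dvd_prod hQO (hR p hp) fun hpQ => hQR p hpQ hp, fun h => hPR p h hp⟩
  · unfold Pool.Agent.Helper35K9.LW.gdc at hk
    refine hk.trans (Finset.card_le_card ?_)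
    intro T hT
    rw [Finset.mem_filter] at hT ⊢
    have hTP := Finset.mem_powerset.1 hT.1
    refine ⟨hT.1, ?_⟩
    have h1 : Gd gA gL (Q ∪ T) :=
      Pool.Agent.Helper35K9.TW.PP.gd_of_det (by convert hT.2)
    have h2 : (⟨1, 1⟩ : GaussianInt) * (∏ x ∈ Q, x) * ∏ p ∈ T, p =
        ⟨1, 1⟩ * ∏ x ∈ Q ∪ T, x := by
      rw [Finset.prod_union (hdis.mono_right hTP)]
      ring
    rw [h2]
    exact above_of (fun x hx => by
      rcases Finset.mem_union.1 hx with h3 | h3
      · exact hQO x h3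
      · exact hP x (hTP h3)) (hgd T hTP h1)

theorem tail_eq (N k : ℕ) : tail N k = Pool.Agent.Helper35K9.LW.bk N k 0.419 := by
  unfold tail Pool.Agent.Helper35K9.LW.bk
  norm_num

theorem half_tendsto : Tendsto (fun X : ℕ => X / 2) atTop atTop := by
  apply tendsto_atTop_atTop.2
  intro b
  exact ⟨2 * b, fun a ha => by omega⟩

theorem many_count (hinc : Pool.Agent.Helper35K9.LW.S_INC) (hmon : Pool.Agent.Helper35K9.LW.S_MON)
    {P : Finset GaussianInt} (hP : ∀ p ∈ P, OP p) (k : ℕ) : ∀ᶠ X : ℕ in atTop,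
    tail (2 ^ P.card) k * ((All P X).ncard : ℝ) ≤ ((Many P k X).ncard : ℝ) := by
  classical
  rw [tail_eq]
  -- the count of the sets
  have hcnt : ∀ᶠ X : ℕ in atTop, Pool.Agent.Helper35K9.LW.bk (2 ^ P.card) k 0.419 *
      (((SS X).filter fun S => Disjoint S P).card : ℝ) ≤
      (((SS X).filter fun S => Pool.Agent.Helper35K9.LW.Ej k P S).card : ℝ) := by
    rcases Nat.eq_zero_or_pos k with rfl | hk
    · refine Eventually.of_forall fun X => ?_
      rw [hmon.2.2.1, one_mul]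
      refine le_of_eq ?_
      congr 2
      ext S
      unfold Pool.Agent.Helper35K9.LW.Ej
      simp
    · rcases le_or_gt k (2 ^ P.card) with hk2 | hk2
      · exact (Pool.Agent.Helper35K9.LW.many_Ej hinc hmon hP hk hk2).mono fun X hX => by convert hX
      · refine Eventually.of_forall fun X => ?_
        have h1 : Pool.Agent.Helper35K9.LW.bk (2 ^ P.card) k 0.419 = 0 := by
          unfold Pool.Agent.Helper35K9.LW.bk
          rw [Finset.Icc_eq_empty (by omega), Finset.sum_empty]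
        rw [h1, zero_mul]
        exact Nat.cast_nonneg _
  have hb0 : 0 ≤ Pool.Agent.Helper35K9.LW.bk (2 ^ P.card) k 0.419 :=
    (hmon.2.2.2 _ _ _ (by norm_num) (by norm_num)).1
  refine (half_tendsto.eventually hcnt).mono fun X hX => ?_
  have h1 : ((All P X).ncard : ℝ) ≤
      (((SS (X / 2)).filter fun S => Disjoint S P).card : ℝ) := by
    exact_mod_cast all_le P X
  have h2 : ((SS (X / 2)).filter fun S =>
      Pool.Agent.Helper35K9.LW.Ej k P S).card ≤ (Many P k X).ncard := by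
    have h3 : ((((SS (X / 2)).filter fun S =>
        Pool.Agent.Helper35K9.LW.Ej k P S).image fun S => (⟨1, 1⟩ : GaussianInt) * ∏ p ∈ S, p :
        Finset GaussianInt) : Set GaussianInt) ⊆ Many P k X := by
      intro D hD
      rw [Finset.mem_coe, Finset.mem_image] at hD
      obtain ⟨S, hS, rfl⟩ := hD
      rw [Finset.mem_filter] at hS
      exact mem_many hP hS.1 hS.2
    have h4 := Set.ncard_le_ncard h3 ((all_finite P X).subset fun D hD => hD.1)
    rw [Set.ncard_coe_finset, Finset.card_image_of_injOn] at h4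
    · exact h4
    · intro S hS T hT h
      rw [Finset.mem_coe, Finset.mem_filter, mem_SS] at hS hT
      exact inj_prod hS.1.1 hT.1.1 h
  have h3 : (((SS (X / 2)).filter fun S =>
      Pool.Agent.Helper35K9.LW.Ej k P S).card : ℝ) ≤ ((Many P k X).ncard : ℝ) := by
    exact_mod_cast h2
  have h4 := mul_le_mul_of_nonneg_left h1 hb0
  exact h4.trans (hX.trans h3)

theorem almost (hinc : Pool.Agent.Helper35K9.LW.S_INC) (hmon : Pool.Agent.Helper35K9.LW.S_MON)
    (hlln : Pool.Agent.Helper35K9.LW.S_LLN) {ε : ℝ} (hε : 0 < ε) : ∃ n₀ : ℕ,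
    ∀ P : Finset GaussianInt, (∀ p ∈ P, OP p) → n₀ ≤ P.card → ∀ᶠ X : ℕ in atTop,
      (1 - ε) * ((All P X).ncard : ℝ) ≤
        ((Many P ⌈(0.419 - ε) * 2 ^ P.card⌉₊ X).ncard : ℝ) := by
  obtain ⟨M₀, hM₀⟩ := hlln 0.419 (by norm_num) (by norm_num) (ε / 2) (by positivity)
  obtain ⟨n₁, hn₁⟩ := exists_nat_gt (2 / ε)
  refine ⟨max M₀ n₁, fun P hP hn => ?_⟩
  have hn1 : P.card < 2 ^ P.card := Nat.lt_two_pow_self
  have hM1 : M₀ ≤ 2 ^ P.card := ((le_max_left _ _).trans hn).trans hn1.le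
  have hM2 : n₁ ≤ 2 ^ P.card := ((le_max_right _ _).trans hn).trans hn1.le
  have hM3 : 2 / ε ≤ ((2 ^ P.card : ℕ) : ℝ) := hn₁.le.trans (by exact_mod_cast hM2)
  have hM4 : 2 ≤ ε * ((2 ^ P.card : ℕ) : ℝ) := by
    rw [div_le_iff₀ hε] at hM3
    linarith
  have hk : 1 - ε ≤ tail (2 ^ P.card) ⌈(0.419 - ε) * 2 ^ P.card⌉₊ := by
    rw [tail_eq]
    rcases le_or_gt ((0.419 - ε) * 2 ^ P.card) 0 with h0 | h0
    · rw [Nat.ceil_eq_zero.2 h0, hmon.2.2.1]
      linarith
    · have h1 := hM₀ (2 ^ P.card) hM1 ⌈(0.419 - ε) * 2 ^ P.card⌉₊ (by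
        have h2 := Nat.ceil_lt_add_one h0.le
        push_cast at hM4 ⊢
        nlinarith)
      linarith
  refine (many_count hinc hmon hP ⌈(0.419 - ε) * 2 ^ P.card⌉₊).mono fun X hX => ?_
  exact (mul_le_mul_of_nonneg_right hk (Nat.cast_nonneg _)).trans hX

end proof

/-- **Main theorem.** Let `P` be a finite set of primary primes, `N = 2 ^ #P`. There are at least `c X`
squarefree `D ≡ 1 + i mod 4` prime to `P` of norm at most `X`, `c > 0`. For large `X` at least the
proportion `0.419 ^ N` of them are in `Tower P X`, and for every `k` at least the proportion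
`tail N k` (a binomial variable with parameters `N` and `0.419` is at least `k`) are in `Many P k X`. For
every `ε > 0`, if `#P` is large, at least the proportion `1 - ε` of them are in `Many P k X` for
`k = (0.419 - ε) N` (rounded up). -/
theorem result :
    (∀ P : Finset GaussianInt, (∀ p ∈ P, Prime p ∧ Primary p) →
      (∃ c : ℝ, 0 < c ∧ ∀ᶠ X : ℕ in atTop, c * X ≤ ((All P X).ncard : ℝ)) ∧
      (∀ᶠ X : ℕ in atTop,
        0.419 ^ (2 ^ P.card) * ((All P X).ncard : ℝ) ≤ ((Tower P X).ncard : ℝ)) ∧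
      ∀ k : ℕ, ∀ᶠ X : ℕ in atTop,
        tail (2 ^ P.card) k * ((All P X).ncard : ℝ) ≤ ((Many P k X).ncard : ℝ)) ∧
    ∀ ε : ℝ, 0 < ε → ∃ n₀ : ℕ, ∀ P : Finset GaussianInt, (∀ p ∈ P, Prime p ∧ Primary p) →
      n₀ ≤ P.card → ∀ᶠ X : ℕ in atTop,
        (1 - ε) * ((All P X).ncard : ℝ) ≤
          ((Many P ⌈(0.419 - ε) * 2 ^ P.card⌉₊ X).ncard : ℝ) := by
  refine ⟨fun P hP₀ => ?_, fun ε hε => ?_⟩
  swap
  · obtain ⟨n₀, h⟩ := almost Pool.Agent.Helper35K9.LW.inc Pool.Agent.Helper35K9.LW.mon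
      Pool.Agent.Helper35K9.LW.lln hε
    exact ⟨n₀, fun P hP => h P fun p hp => (op_iff p).2 (hP p hp)⟩
  classical
  have hP : ∀ p ∈ P, Pool.Agent.Y697.MQ.OP p := fun p hp => (op_iff p).2 (hP₀ p hp)
  refine ⟨?_, ?_, fun k => many_count Pool.Agent.Helper35K9.LW.inc Pool.Agent.Helper35K9.LW.mon hP k⟩
  · refine ⟨1 / (2 ^ P.card * 65536000 * 4), by positivity, ?_⟩
    filter_upwards [eventually_ge_atTop 144] with X hX
    have h1 := Pool.Agent.Helper35K9.TW.PQ.disj_ge (P := P) (X / 2)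
    have h2 := Pool.Agent.Y697.PP.SS_ge (X := X / 2) (by omega)
    have h3 : (((Pool.Agent.Y697.PP.SS (X / 2)).filter fun S => Disjoint S P).card : ℝ) ≤
        ((All P X).ncard : ℝ) := by exact_mod_cast le_all hP X
    have h4 : (X : ℝ) / 4 ≤ ((X / 2 : ℕ) : ℝ) := by
      have h5 : X ≤ 4 * (X / 2) := by omega
      have h6 : (X : ℝ) ≤ 4 * ((X / 2 : ℕ) : ℝ) := by exact_mod_cast h5
      linarith
    have h5 : (0 : ℝ) < 2 ^ P.card := by positivity
    rw [div_mul_eq_mul_div, one_mul, div_le_iff₀ (by positivity)]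
    have h6 : ((Pool.Agent.Y697.PP.SS (X / 2)).card : ℝ) ≤ 2 ^ P.card * ((All P X).ncard : ℝ) := by
      refine h1.trans ?_
      refine mul_le_mul_of_nonneg_left ?_ h5.le
      refine le_trans (le_of_eq ?_) h3
      congr!
    have h7 : ((X / 2 : ℕ) : ℝ) ≤ 65536000 * ((Pool.Agent.Y697.PP.SS (X / 2)).card : ℝ) := by
      rw [div_le_iff₀ (by norm_num)] at h2
      linarith
    nlinarith
  · have h0 : Tendsto (fun X : ℕ => X / 2) atTop atTop := by
      apply tendsto_atTop_atTop.2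
      intro b
      exact ⟨2 * b, fun a ha => by omega⟩
    refine (h0.eventually (Pool.Agent.Helper35K9.TW.PQ.many_Dj hP)).mono fun X hX => ?_
    have h1 : ((All P X).ncard : ℝ) ≤
        (((Pool.Agent.Y697.PP.SS (X / 2)).filter fun S => Disjoint S P).card : ℝ) := by
      exact_mod_cast all_le P X
    have h2 : ((Pool.Agent.Y697.PP.SS (X / 2)).filter fun S =>
        Pool.Agent.Helper35K9.TW.PQ.Dj P S).card ≤ (Tower P X).ncard := by
      have h3 : ((((Pool.Agent.Y697.PP.SS (X / 2)).filter fun S =>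
          Pool.Agent.Helper35K9.TW.PQ.Dj P S).image fun S => (⟨1, 1⟩ : GaussianInt) * ∏ p ∈ S, p :
          Finset GaussianInt) : Set GaussianInt) ⊆ Tower P X := by
        intro D hD
        rw [Finset.mem_coe, Finset.mem_image] at hD
        obtain ⟨S, hS, rfl⟩ := hD
        rw [Finset.mem_filter] at hS
        exact mem_tower hP hS.1 hS.2
      have h4 := Set.ncard_le_ncard h3 ((all_finite P X).subset fun D hD => hD.1)
      rw [Set.ncard_coe_finset, Finset.card_image_of_injOn] at h4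
      · exact h4
      · intro S hS T hT h
        rw [Finset.mem_coe, Finset.mem_filter, Pool.Agent.Y697.PP.mem_SS] at hS hT
        exact inj_prod hS.1.1 hT.1.1 h
    have h3 : (((Pool.Agent.Y697.PP.SS (X / 2)).filter fun S =>
        Pool.Agent.Helper35K9.TW.PQ.Dj P S).card : ℝ) ≤ ((Tower P X).ncard : ℝ) := by
      exact_mod_cast h2
    have h4 : 0.419 ^ (2 ^ P.card) * ((All P X).ncard : ℝ) ≤
        0.419 ^ (2 ^ P.card) *
          (((Pool.Agent.Y697.PP.SS (X / 2)).filter fun S => Disjoint S P).card : ℝ) := by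
      gcongr
    refine h4.trans (le_trans ?_ h3)
    convert hX

end Pool.Agent.Results.MP_b8021b_nt.TowersEveryDegree
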