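import Pool.Agent.Helper35K9.BS.Prf

/-!
# Both sides of the conjectures of Beilinson, Bloch and Kato for the powers of a positive proportion of
# the quadratic twists of `X_0(49)` over `ℚ(√-7)`

Let `K = ℚ(√-7)`, `R = ℤ[ω]` its ring of integers, `ω = (1 + √-7) / 2`; the units of `R` are `1` and `-1`,
the class number is one and two is the product of the primes `ω` and `1 - ω`.  The curve
`E : y² = x³ - 35 x - 98` is the modular curve `X_0(49)`; it has complex multiplication by `R`, good
reduction outside `√-7`, and its Hecke character over `K` is given by `ψ((α)) = (α / √-7) α`.  For
`D ∈ R`, squarefree, congruent to `1` modulo `8` and prime to `√-7`, let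
`E_D : y² = x³ - 35 D² x - 98 D³` be the quadratic twist of `E` by `D`.  The primes `ω` and `1 - ω` split
in `K(√D)`, and the Hecke character of `E_D` is given by `ψ_D((p)) = (D / p) p`, where `p` is the
generator of the prime ideal that is a square modulo `√-7`, with the quadratic residue symbol `(D / p)`
(it is `0` for the `p` dividing `D`).

For `X = E_D ^ N` the representation `H^(2m-1)(X)` of `Gal(Kbar / K)` is a direct sum of the characters
`ψ_D ^ a * conj ψ_D ^ b`, `a + b = 2 m - 1`.  The conjectures of Beilinson, Bloch and Kato say that the
rank of `CH^m(X)_hom`, the dimension of the Bloch–Kato Selmer group of `H^(2m-1)(X, ℚ_2(m))` (the target of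
the `2`-adic Abel–Jacobi map) and the order of vanishing of `L(H^(2m-1)(X), s)` at `s = m` are equal.
The `L`-function is the product of the `L(ψ_D ^ a * conj ψ_D ^ b, s)`, and the representation
`H^(2m-1)(X, ℚ_2(m))` is the direct sum of the characters `κ ^ (m - a) κ' ^ (m - b)`, where `κ` and `κ'`
are the two characters by which the Galois group acts on the `2`-adic Tate module of `E_D`: so the
Selmer group is the direct sum of the Selmer groups of these characters.

Let `c = ∏_{i ≥ 1} (1 - 2^(-i)) = 0.288788...`.  We prove that among the `D` as above, ordered by the norm
(a set of positive lower density in `R`),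

* for a proportion of at least `c` (as lower limit) the group `E_D(K)` is finite and for all `m ≥ 1`,
  `a + b = 2 m - 1`, with `|a - b| ≡ 1` modulo `4` both sides are zero:
  `L(ψ_D ^ a * conj ψ_D ^ b, m) ≠ 0` and the Selmer group of `κ ^ (m - a) κ' ^ (m - b)` over `K` is zero;
  this is half of all pairs `(a, b)`, for all degrees `m`, and it contains both pairs with `m = 1`;
* for a proportion of at least `c / 2` this holds for all `m ≥ 1` and all `a + b = 2 m - 1`; so for all `m`
  and `N` the order of `L(H^(2m-1)(E_D ^ N), s)` at `s = m` is zero, and the Bloch–Kato Selmer group of
  `H^(2m-1)(E_D ^ N, ℚ_2(m))` is zero.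

The definitions are in `Pool.Agent.Helper35K9.BS.Def`.

The proof, values: let `|a - b| = 2 e + 1`.  For a divisor `δ` of `D` the value at the centre of the
`L`-function of the character `ψ_δ ^ a * conj ψ_δ ^ b`, with the Euler factors at the primes of `D`
removed, is a finite sum of values of the Eisenstein–Kronecker series of weight `2 e + 1` at the points
of order `D` translated by a point of order `√-7`.  After the removal of the period the sum over all `δ`
is divisible by a power of the primes over two that grows with the number of the prime factors of `D`,
and Möbius inversion gives a recursion, modulo a prime over two, for the normalized values over the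
divisors of `D`.  It has the same shape as the expansion of the determinant of a matrix of quadratic
residue symbols `(p / q)` between the primes of `D`, bordered by the symbols of `√-7`.  For even `e` the
value is not zero if this matrix is nonsingular modulo two; for odd `e` there is one further condition,
an equation that involves the symbols of `ω` and `1 - ω` at the primes of `D`.

Selmer groups: a nonzero class gives, after normalization, a homomorphism from the Galois group to
`ℤ / 2`, that is an element `δ` of `K^× / squares`, different from `1` and from the class of the
quadratic character `κ ^ j κ' ^ (1 - j)` modulo `4`, `j = m - a`.  The local conditions say that `δ` is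
supported on the primes of `D`, `√-7` and one of the two primes over two, that it is a square, or a
square times that class, in the completion at the other prime over two, and a condition at each prime of
`D`.  By quadratic reciprocity in `K` they become linear equations modulo two.  If `|a - b| ≡ 1` modulo
`4` their matrix is the transpose of the matrix above; otherwise it is the same matrix and the condition
at the strict place over two is the further condition, up to transposition.  So one condition on the
symbols is sufficient for both sides.  All primes of `D` are allowed, also those with `-1` a nonsquare: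
the matrix is not symmetric, in contrast to the families of rational `D` in the library.

Counting: the proportion of the `D` with a nonsingular matrix is `c`, and one half of them satisfy the
further condition: this is the method of Heath-Brown and Smith (moments of the number of the elements of
the kernel), for the class `1` modulo `8` and the pairs `(kernel, further condition)`;
see `Pool.Agent.R426.QK` and `Pool.Agent.Helper26K9.QR`.  The finiteness of `E_D(K)` is taken from the
library (`MP_e996df_nt`, `TwoPartTwistsX49`), and the local Galois theory of the Selmer groups from
`Pool.Agent.R384` (`MP_787500_nt`, `AllWeightsMultiquadraticX49`).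
-/

set_option autoImplicit false

open Complex Filter

namespace Pool.Agent.Results.MP_b8021b_nt.BothSidesSqrtMinusSeven

open Pool.Agent.Helper35K9.BS.Def

/-- **Theorem.**  Let `R = ℤ[ω]` be the ring of integers of `ℚ(√-7)`, `r = √-7` and
`c = ∏_{i ≥ 1} (1 - 2^(-i)) > 0.288`.  There are finitely many, and at least a constant times `X`,
squarefree `D ≡ 1` modulo `8`, prime to `√-7`, of norm at most `X`.  For a proportion of at least `c - ε`
of them, for every `ε > 0` and all large `X`, the group `E_D(K)` is finite and for all `m ≥ 1`,
`a + b = 2 m - 1`, `|a - b| ≡ 1` modulo `4` both `L(ψ_D ^ a * conj ψ_D ^ b, m) ≠ 0` and the `2`-adic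
Bloch–Kato Selmer group of the same character over `K` is zero; for a proportion of at least `c / 2 - ε`
this is true without the last condition. -/
theorem result (R : Subring ℂ) (hR : ∀ z : ℂ, z ∈ R ↔ ∃ x y : ℤ, z = x + y * omega)
    (r : R) (hr : (r : ℂ) = Real.sqrt 7 * I) :
    (288 / 1000 : ℝ) < ∏' i : ℕ, (1 - (1 / 2 : ℝ) ^ (i + 1)) ∧
    (∀ X : ℝ, (Twists r X).Finite) ∧
    (∃ c : ℝ, 0 < c ∧ ∀ X : ℝ, 1 ≤ X → c * X ≤ ((Twists r X).ncard : ℝ)) ∧
    (∀ ε : ℝ, 0 < ε → ∃ X₀ : ℝ, ∀ X : ℝ, X₀ ≤ X →
      ((∏' i : ℕ, (1 - (1 / 2 : ℝ) ^ (i + 1))) - ε) * ((Twists r X).ncard : ℝ) ≤
        ({D ∈ Twists r X | BothSides r D Half}.ncard : ℝ)) ∧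
    (∀ ε : ℝ, 0 < ε → ∃ X₀ : ℝ, ∀ X : ℝ, X₀ ≤ X →
      (1 / 2 * (∏' i : ℕ, (1 - (1 / 2 : ℝ) ^ (i + 1))) - ε) * ((Twists r X).ncard : ℝ) ≤
        ({D ∈ Twists r X | BothSides r D All}.ncard : ℝ)) :=
  main R hR r hr

end Pool.Agent.Results.MP_b8021b_nt.BothSidesSqrtMinusSeven
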