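import Pool.Agent.Helper26K9.QA.All
import Pool.Agent.Helper26K9.QT.R1
import Pool.Agent.Helper26K9.QT.R2
import Pool.Agent.Helper35K9.QM.Mix

/-!
# The Beilinson–Bloch conjecture for all mixed quartic twists, in every degree

Let `K = ℚ(i)` and let `D ≡ 1 + 2 i mod 4` be a squarefree Gaussian integer. For a divisor
`g ≡ 1 mod 2 + 2 i` of `D` let `E(g)` be the elliptic curve `y² = x³ - D g² x` over `K`, the quartic twist of
`y² = x³ - x` by `D g²`: the exponent of a prime factor of `D` in `D g²` is `3` if it divides `g` and `1` if not.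
These are `2^ω(D)` curves over `K` (`ω(D)` the number of the prime factors of `D`), no two of them isogenous.

The curve `E(g)` has complex multiplication by `ℤ[i]`; its Hecke character is given by
`(p) ↦ conj (D g² / p)₄ * p` for the primes `p` of `ℤ[i]` with `p ≡ 1 mod 2 + 2 i` (generators of
all the prime ideals but `(1 + i)`), where `(D / p)₄` is the quartic residue symbol. By the law of quartic
reciprocity, `D ≡ 1 + 2 i mod 4` and `g ≡ 1 mod 2 + 2 i` we have `(D g² / p)₄ = χ_D(p) χ_g(p)²`, where `χ_D(p)` is the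
product of the symbols `(p / q)₄` for the primes `q ≡ 1 mod 2 + 2 i` dividing `D`.

So for a product `X` of curves `E(g)` (with any multiplicities; `X` is an abelian variety of any dimension) the
representation `H^(2m-1)(X)` of `Gal(Kbar / K)` is a direct sum of characters which are products of `a`
characters `ψ_g` and `b` characters `conj ψ_g` (`ψ_g` the one of `E(g)`, `a + b = 2 m - 1`). As `a + b` is odd, the
exponent at each prime factor of `D` is again odd: the character is `χ_D χ_g² ψ ^ a conj ψ ^ b` for some divisor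
`g` of `D`, `ψ((p)) = p`. Hence `L(H^(2m-1)(X), s)` is a product of the `L`-functions of these characters. (Some
of them are not ramified at `1 + i`; their Euler factors at `1 + i`, which are not in the
products below, have neither a zero nor a pole at the centre `s = m`, as the absolute value is `N^(m - 1/2)`.)
In the same way `(ψ_2)((p)) = (D / p)₄² p`, with the quadratic residue symbol, belongs to
`E_2 : y² = x³ - D² x`, and the characters of `H^(2m-1)(E_2^N)` are `χ_D² ψ ^ a conj ψ ^ b`.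

Put `α = ∏ (1 - 2^(-2n-1)) = 0.4194...`.

Theorem: for a set of `D` of lower density at least `α` among the squarefree `D ≡ 1 + 2 i mod 4`,
ordered by norm:

* all the curves `y² = x³ - D g² x`, `g` dividing `D`, and `y² = x³ - D² x` have only finitely many points over
  `K`, and
* for **all** divisors `g` of `D`, **all** `m ≥ 1` and **all** `a + b = 2 m - 1` the functions
  `L(χ_D χ_g² ψ ^ a conj ψ ^ b, s)` and `L(χ_D² ψ ^ a conj ψ ^ b, s)` are entire and do not vanish at the centre
  `s = m`; the same for `L(ψ ^ a conj ψ ^ b, s)` if `|a - b| ≡ 1` or `3` modulo `8` (for `|a - b| ≡ 5` or `7`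
  modulo `8` the sign in the functional equation is `-1`).

Hence `ord_{s=m} L(H^(2m-1)(X), s) = 0`, as Beilinson and Bloch predict if all the groups `CH^m(X)_hom`
are torsion, for **all** `m` and **all** products `X` of the `2^ω(D)` curves `E(g)`, of any dimension, and for all
powers `X` of `E_2`. For `m = 1` both sides are zero.
-/

set_option autoImplicit false

namespace Pool.Agent.Results.MP_b8021b_nt.QuarticTwistsEveryDegree

/-- The primes `p` of `ℤ[i]` with `p ≡ 1 mod 2 + 2 i`: one generator for each prime ideal prime to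
`1 + i`. -/
def PrimaryPrime : Type := {p : GaussianInt // Prime p ∧ (⟨2, 2⟩ : GaussianInt) ∣ p - 1}

open Classical in
/-- The quartic residue symbol `(α / p)₄` for a prime `p` of `ℤ[i]` prime to `1 + i`: the fourth root of
unity `u` with `u ≡ α ^ ((N(p) - 1) / 4)` modulo `p`, and `0` if `p` divides `α` (there is no such
`u`). -/
noncomputable def symbol (p α : GaussianInt) : ℂ :=
  if h : ∃ u : GaussianInt, u ^ 4 = 1 ∧ p ∣ α ^ ((p.norm.natAbs - 1) / 4) - u then
    ((Classical.choose h : GaussianInt) : ℂ) else 0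

/-- `χ_D(α) = (α / D)₄`: the product of the symbols `(α / p)₄` for the primes `p ≡ 1 mod 2 + 2 i` that
divide `D`. -/
noncomputable def chi (D α : GaussianInt) : ℂ :=
  ∏ᶠ (p : PrimaryPrime) (_ : p.1 ∣ D), symbol p.1 α

/-- `L` is entire and it is the Hecke `L`-function of `χ * ψ ^ a * conj ψ ^ b`, without the Euler
factor at `1 + i`: the Euler product over the primes `p ≡ 1 mod 2 + 2 i`, in the half plane of absolute
convergence. -/
def IsLFunction (χ : GaussianInt → ℂ) (a b : ℕ) (L : ℂ → ℂ) : Prop :=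
  Differentiable ℂ L ∧ ∀ s : ℂ, ((a : ℝ) + b) / 2 + 1 < s.re →
    HasProd (fun p : PrimaryPrime => (1 - χ p.1 * (p.1 : ℂ) ^ a *
      (starRingEnd ℂ) (p.1 : ℂ) ^ b * ((p.1.norm : ℤ) : ℂ) ^ (-s))⁻¹) (L s)

/-- The squarefree Gaussian integers `D ≡ 1 + 2 i mod 4` of norm at most `X`. -/
def Twists (X : ℝ) : Set GaussianInt :=
  {D | Squarefree D ∧ (4 : GaussianInt) ∣ D - ⟨1, 2⟩ ∧ ((D.norm : ℤ) : ℝ) ≤ X}

/-- The curve `y² = x³ - c x` has only finitely many points over `K = ℚ(i)`. -/
def FinitelyManyPoints (c : GaussianInt) : Prop :=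
  {P : FractionRing GaussianInt × FractionRing GaussianInt |
    P.2 ^ 2 = P.1 ^ 3 - algebraMap GaussianInt (FractionRing GaussianInt) c * P.1}.Finite

/-- For every divisor `g ≡ 1 mod 2 + 2 i` of `D` the curve `y² = x³ - D g² x` has only finitely many points over
`ℚ(i)`, and `L(χ_D * χ_g ^ 2 * ψ ^ a * conj ψ ^ b, s)` is entire and not zero at the centre `s = m` for all
`m ≥ 1` and all `a + b = 2 m - 1`; the same for `y² = x³ - D² x` and `L(χ_D ^ 2 * ψ ^ a * conj ψ ^ b, s)`; and
`L(ψ ^ a * conj ψ ^ b, s)` is entire and not zero at `s = m` if `|a - b|` is `1` or `3` modulo `8`. -/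
def Good (D : GaussianInt) : Prop :=
  (∀ g : GaussianInt, (⟨2, 2⟩ : GaussianInt) ∣ g - 1 → g ∣ D → FinitelyManyPoints (D * g ^ 2) ∧
    ∀ m a b : ℕ, 1 ≤ m → a + b = 2 * m - 1 →
      ∃ L : ℂ → ℂ, IsLFunction (fun α => chi D α * chi g α ^ 2) a b L ∧ L m ≠ 0) ∧
  FinitelyManyPoints (D ^ 2) ∧
  ∀ m a b : ℕ, 1 ≤ m → a + b = 2 * m - 1 →
    (∃ L : ℂ → ℂ, IsLFunction (fun α => chi D α ^ 2) a b L ∧ L m ≠ 0) ∧
    ((((a : ℤ) - b).natAbs % 8 = 1 ∨ ((a : ℤ) - b).natAbs % 8 = 3) →
      ∃ L : ℂ → ℂ, IsLFunction (fun _ => 1) a b L ∧ L m ≠ 0)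

/-- the good numbers -/
theorem good_of {A : Finset Pool.Agent.Y690.PP.Pr}
    (hX : Pool.Agent.Y690.PP.XX Pool.Agent.Y690.PP.gs (fun _ => (1 : ℝ)) A = 2)
    (hch : Pool.Agent.Helper26K9.DN.ch A = -1) : Good (-Pool.Agent.Y690.PP.Fn.PA A) :=
  ⟨fun _ hg hgD => Pool.Agent.Helper35K9.QM.good_mix hX hch hg hgD,
    Pool.Agent.Helper35K9.QM.good_even hX hch⟩

/-- **Main theorem.** Put `α = ∏ (1 - 2^(-2n-1)) > 0.419`.  For every `ε > 0` the proportion of the `D`
with `Good D` among the squarefree Gaussian integers `D ≡ 1 + 2 i mod 4` of norm at most `X` (their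
number is at least a constant times `X`) is at least `α - ε` for all large `X`. -/
theorem result :
    (419 / 1000 : ℝ) < ∏' n : ℕ, (1 - (1 / 2 : ℝ) ^ (2 * n + 1)) ∧
    (∀ X : ℝ, (Twists X).Finite) ∧
    (∃ c : ℝ, 0 < c ∧ ∃ X₁ : ℝ, ∀ X : ℝ, X₁ ≤ X → c * X ≤ ((Twists X).ncard : ℝ)) ∧
    ∀ ε : ℝ, 0 < ε → ∃ X₀ : ℝ, ∀ X : ℝ, X₀ ≤ X →
      ((∏' n : ℕ, (1 - (1 / 2 : ℝ) ^ (2 * n + 1))) - ε) * ((Twists X).ncard : ℝ) ≤
        ({D ∈ Twists X | Good D}.ncard : ℝ) := by
  refine ⟨Pool.Agent.Y944.PP.t_NUM, Pool.Agent.Helper26K9.QT.TwP_fin,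
    Pool.Agent.Helper26K9.QT.fin4.1, fun ε hε => ?_⟩
  obtain ⟨X₀, h⟩ := Pool.Agent.Helper26K9.QT.cnt.2.2 (fun D => Good (-D))
    (fun A hX hch => good_of hX hch) ε hε
  refine ⟨X₀, fun X hX => ?_⟩
  have h1 := h X hX
  have h2 := Pool.Agent.Helper26K9.QT.TwP_card X
  have h3 := Pool.Agent.Helper26K9.QT.TwP_sep X Good
  have h4 : ({D ∈ Pool.Agent.Helper26K9.QT.TwP X | Good D}).ncard =
      ({D ∈ Pool.Agent.Helper26K9.QT.TwC X | Good (-D)}).ncard := by
    rw [h3, Set.ncard_image_of_injective _ neg_injective]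
  have h5 : Twists X = Pool.Agent.Helper26K9.QT.TwP X := rfl
  rw [h5, h4, h2]
  exact h1

end Pool.Agent.Results.MP_b8021b_nt.QuarticTwistsEveryDegree
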