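import Pool.Agent.Helper26K9.DN.Last

/-!
# The Beilinson–Bloch conjecture for more than a third of all quadratic twists of `y² = x³ - x`

Let `K = ℚ(i)` and, for a squarefree Gaussian integer `D`, let `E_D` be the elliptic curve
`D y² = x³ - x` over `K`.  The curves `E_D`, `D` squarefree, are all the quadratic twists of
`y² = x³ - x` over `K` (`E_D` and `E_(-D)` are isomorphic as `-1` is a square).  The curve `E_D` has
complex multiplication by `ℤ[i]`; its Hecke character `ψ_D` is given by `ψ_D((p)) = (D / p) p` for the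
primes `p` of `ℤ[i]` with `p ≡ 1 mod 2 + 2 i`, where `(D / p)` is the quadratic residue symbol; these
primes are generators of all the prime ideals but `(1 + i)`.  If `a + b` is odd the character
`ψ_D ^ a * conj ψ_D ^ b` is ramified at `1 + i` for every `D` (the finite part of its restriction to
the units sends `i` to a primitive fourth root of unity, and the characters at the primes dividing `D`
are quadratic), so its Euler product is the product over these primes.

For `X = E_D ^ N` the representation `H^(2m-1)(X)` of `Gal(Kbar / K)` is a direct sum of the characters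
`ψ_D ^ a * conj ψ_D ^ b` with `a + b = 2 m - 1`, `a, b ≥ 0`, so `L(H^(2m-1)(X), s)` is a product of the
functions `L(ψ_D ^ a * conj ψ_D ^ b, s)`.

Put `α = ∏ (1 - 2^(-2n-1)) = 0.4194...`.

Theorem: order the squarefree Gaussian integers `D` by their norm.

* For a set of `D` of lower density at least `5 α / 6 = 0.3495...` among all squarefree Gaussian
  integers, `E_D(K)` consists of the four points of order at most two and
  `L(ψ_D ^ a * conj ψ_D ^ b, s)` is entire and does not vanish at the centre `s = m` for all `m ≥ 1` and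
  all `a + b = 2 m - 1` with `|a - b| ≡ 1 mod 4`.  For `m = 1` this is the condition on all `a, b`: for
  more than a third of all quadratic twists `E_D` we have `L(E_D / K, 1) ≠ 0` and
  `rank E_D(K) = 0`, so that for all `N` the Beilinson–Bloch conjecture holds for `m = 1` and
  `X = E_D ^ N`: `rank CH^1(X)_hom = rank E_D(K)^N = 0 = ord_{s=1} L(H^1(X), s)`.
* For a set of `D` of lower density at least `2 α / 3 = 0.2796...` the same holds without the condition
  on `|a - b|`: `L(H^(2m-1)(X), s)` is not zero at `s = m` for all `m ≥ 1`, and Beilinson–Bloch predicts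
  that all the groups `CH^m(X)_hom`, `X = E_D ^ N`, are torsion.
* Among the odd squarefree `D` (those that are not divisible by `1 + i`) the lower densities are at
  least `3 α / 4 = 0.3145...` and `α / 2 = 0.2097...`.
-/

set_option autoImplicit false

namespace Pool.Agent.Results.MP_b8021b_nt.ThirdOfAllTwists

open Classical in
/-- The quadratic residue symbol `(D / p)` for a prime `p` of `ℤ[i]`: it is `0` if `p` divides `D`,
`1` if `D` is a nonzero square modulo `p`, and `-1` if `D` is not a square modulo `p`. -/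
noncomputable def symbol (p D : GaussianInt) : ℤ :=
  if p ∣ D then 0 else if ∃ b : GaussianInt, p ∣ b * b - D then 1 else -1

/-- The primes `p` of `ℤ[i]` with `p ≡ 1 mod 2 + 2 i`: one generator for each prime ideal prime to
`1 + i`. -/
def PrimaryPrime : Type := {p : GaussianInt // Prime p ∧ (⟨2, 2⟩ : GaussianInt) ∣ p - 1}

/-- `L` is entire and it is the Hecke `L`-function of `ψ_D ^ a * conj ψ_D ^ b` (`a + b` odd, `D`
squarefree): the Euler product over all prime ideals (the factor at `(1 + i)` is `1`), in the half plane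
of absolute convergence. -/
def IsLFunction (D : GaussianInt) (a b : ℕ) (L : ℂ → ℂ) : Prop :=
  Differentiable ℂ L ∧ ∀ s : ℂ, ((a : ℝ) + b) / 2 + 1 < s.re →
    HasProd (fun p : PrimaryPrime => (1 - (symbol p.1 D : ℂ) * (p.1 : ℂ) ^ a *
      (starRingEnd ℂ) (p.1 : ℂ) ^ b * ((p.1.norm : ℤ) : ℂ) ^ (-s))⁻¹) (L s)

/-- The squarefree Gaussian integers `D` of norm at most `X`. -/
def Twists (X : ℝ) : Set GaussianInt :=
  {D | Squarefree D ∧ ((D.norm : ℤ) : ℝ) ≤ X}

/-- The squarefree Gaussian integers `D` of norm at most `X` that are not divisible by `1 + i`. -/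
def OddTwists (X : ℝ) : Set GaussianInt :=
  {D | Squarefree D ∧ ¬ (⟨1, 1⟩ : GaussianInt) ∣ D ∧ ((D.norm : ℤ) : ℝ) ≤ X}

/-- The curve `D y² = x³ - x` has no affine points over `K = ℚ(i)` but `(0, 0)`, `(1, 0)` and
`(-1, 0)`. -/
def NoPoints (D : GaussianInt) : Prop :=
  ∀ x y : FractionRing GaussianInt,
    algebraMap GaussianInt (FractionRing GaussianInt) D * y ^ 2 = x ^ 3 - x → y = 0

/-- `L(ψ_D ^ a * conj ψ_D ^ b, s)` is entire and not zero at the centre `s = m`, `a + b = 2 m - 1`. -/
def Nonvanishing (D : GaussianInt) (m a b : ℕ) : Prop :=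
  ∃ L : ℂ → ℂ, IsLFunction D a b L ∧ L m ≠ 0

/-- `D y² = x³ - x` has only the points of order at most two over `ℚ(i)` and
`L(ψ_D ^ a * conj ψ_D ^ b, s)` does not vanish at `s = m` for all `m ≥ 1` and all `a + b = 2 m - 1`. -/
def AllValues (D : GaussianInt) : Prop :=
  NoPoints D ∧ ∀ m a b : ℕ, 1 ≤ m → a + b = 2 * m - 1 → Nonvanishing D m a b

/-- `D y² = x³ - x` has only the points of order at most two over `ℚ(i)` and
`L(ψ_D ^ a * conj ψ_D ^ b, s)` does not vanish at `s = m` for all `m ≥ 1` and all `a + b = 2 m - 1` with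
`|a - b| ≡ 1 mod 4`.  For `m = 1` the condition on `a`, `b` is empty. -/
def HalfOfTheValues (D : GaussianInt) : Prop :=
  NoPoints D ∧ ∀ m a b : ℕ, 1 ≤ m → a + b = 2 * m - 1 → ((a : ℤ) - b).natAbs % 4 = 1 →
    Nonvanishing D m a b

/-- **Main theorem.** Put `α = ∏ (1 - 2^(-2n-1)) > 0.419`.  The proportion of the `D` with
`HalfOfTheValues D` among the squarefree Gaussian integers `D` of norm at most `X` (their number is at
least a constant times `X`) is at least `5 α / 6 - ε` for all large `X`, for every `ε > 0`; the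
proportion of those with `AllValues D` is at least `2 α / 3 - ε`.  Among those not divisible by `1 + i`
the proportions are at least `3 α / 4 - ε` and `α / 2 - ε`. -/
theorem result :
    (419 / 1000 : ℝ) < ∏' n : ℕ, (1 - (1 / 2 : ℝ) ^ (2 * n + 1)) ∧
    (∀ X : ℝ, (Twists X).Finite) ∧
    (∃ c : ℝ, 0 < c ∧ ∀ X : ℝ, 1 ≤ X →
      c * X ≤ ((Twists X).ncard : ℝ) ∧ c * X ≤ ((OddTwists X).ncard : ℝ)) ∧
    (∀ ε : ℝ, 0 < ε → ∃ X₀ : ℝ, ∀ X : ℝ, X₀ ≤ X →
      (5 / 6 * (∏' n : ℕ, (1 - (1 / 2 : ℝ) ^ (2 * n + 1))) - ε) * ((Twists X).ncard : ℝ) ≤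
        ({D ∈ Twists X | HalfOfTheValues D}.ncard : ℝ)) ∧
    (∀ ε : ℝ, 0 < ε → ∃ X₀ : ℝ, ∀ X : ℝ, X₀ ≤ X →
      (2 / 3 * (∏' n : ℕ, (1 - (1 / 2 : ℝ) ^ (2 * n + 1))) - ε) * ((Twists X).ncard : ℝ) ≤
        ({D ∈ Twists X | AllValues D}.ncard : ℝ)) ∧
    (∀ ε : ℝ, 0 < ε → ∃ X₀ : ℝ, ∀ X : ℝ, X₀ ≤ X →
      (3 / 4 * (∏' n : ℕ, (1 - (1 / 2 : ℝ) ^ (2 * n + 1))) - ε) * ((OddTwists X).ncard : ℝ) ≤
        ({D ∈ OddTwists X | HalfOfTheValues D}.ncard : ℝ)) ∧
    (∀ ε : ℝ, 0 < ε → ∃ X₀ : ℝ, ∀ X : ℝ, X₀ ≤ X →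
      (1 / 2 * (∏' n : ℕ, (1 - (1 / 2 : ℝ) ^ (2 * n + 1))) - ε) * ((OddTwists X).ncard : ℝ) ≤
        ({D ∈ OddTwists X | AllValues D}.ncard : ℝ)) :=
  ⟨Pool.Agent.Y944.PP.t_NUM, Pool.Agent.Helper26K9.DN.TwA_fin, Pool.Agent.Helper26K9.DN.Tw_low,
    Pool.Agent.Helper26K9.DN.half_values.1, Pool.Agent.Helper26K9.DN.all_values.1,
    Pool.Agent.Helper26K9.DN.half_values.2, Pool.Agent.Helper26K9.DN.all_values.2⟩

end Pool.Agent.Results.MP_b8021b_nt.ThirdOfAllTwists
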